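import Pool.Agent.N830.LG.HE
import Pool.Agent.U348.JG.Ham

set_option autoImplicit false

/-!
# Glauber dynamics on graphs whose edges change a fixed number of coordinates

Let `G` be a finite graph and let every vertex `v` have a list `L v` of colours, a subset of a set
of `q` colours. The Glauber dynamics (heat bath) for the proper colourings `σ` with `σ v ∈ L v`
chooses a uniformly random vertex `v` and replaces `σ v` by a uniformly random colour of `L v` which
is not used on the neighbours of `v`.

Known results of the starting files (for the problem MP_b7f179_pr) have optimal mixing with `deg v + s` colours, `s ≥ ε Δ`, on the subgraphs of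
Cartesian products of many graphs of small degree, where an edge changes one coordinate. Here an
edge changes exactly `m` coordinates. Examples are the finite subgraphs of the root lattices of type
`A` and `D` in large dimension (`m = 2`), where neighbours are at distance `√2`.
-/

namespace Pool.Agent.Results.MP_26a019_lc.RootLattices

open Pool.Agent.H983R2.GC (tv nb)
open Pool.Agent.N830.LG (LCol P unif tmix)

/-- The degree. -/
noncomputable def deg {V : Type} (G : SimpleGraph V) (v : V) : ℕ := (G.neighborSet v).ncard

/-- Optimal mixing of the Glauber dynamics for the list colourings, with the constant `A`. -/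
def Opt {q : ℕ} (A : ℝ) (V : Type) [Fintype V] [DecidableEq V] (G : SimpleGraph V)
    (L : V → Finset (Fin q)) : Prop :=
  (∀ σ : LCol G L, tv ((P G L ^ tmix G L) σ) (unif G L) ≤ 1 / 4) ∧
    (tmix G L : ℝ) ≤ A * (Fintype.card V * Real.log (Fintype.card V))

/-- Optimal mixing with the constant `A` for all lists, subsets of a set of `q` colours, with at
least `deg v + s` colours at every vertex `v`. -/
def OptAll (q s : ℕ) (A : ℝ) (V : Type) [Fintype V] [DecidableEq V] (G : SimpleGraph V) : Prop :=
  ∀ L : V → Finset (Fin q), (∀ v, deg G v + s ≤ (L v).card) → Opt A V G L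

/-- **Optimal mixing of the Glauber dynamics for all list assignments.** For every `ε > 0` and every
`m ≥ 1` there is `δ > 0` such that for all `Δ`, `q`, `s` with `s ≥ 2`, `s ≥ ε Δ` there is `A` with
`OptAll q s A` for every graph `G` with at least two vertices and maximal degree at most `Δ` whose
vertices have different labels in a product of `n` sets (`n` is arbitrary), such that the labels of
adjacent vertices differ in exactly `m` coordinates and every vertex has, for each coordinate `i`, at
most `δ s` neighbours whose label differs from its own in the coordinate `i`. -/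
theorem result (ε : ℝ) (hε : 0 < ε) (m : ℕ) (hm : 0 < m) :
    ∃ δ : ℝ, 0 < δ ∧ ∀ Δ q s : ℕ, 2 ≤ s → ε * (Δ : ℝ) ≤ s → ∃ A : ℝ, 0 < A ∧
      ∀ (n : ℕ) (X : Fin n → Type) (V : Type) [Fintype V] [DecidableEq V] (G : SimpleGraph V)
        (x : V → ∀ i, X i),
      Function.Injective x →
      (∀ u w, G.Adj u w → {i | x u i ≠ x w i}.ncard = m) →
      (∀ u i, (({w | G.Adj u w ∧ x u i ≠ x w i} : Set V).ncard : ℝ) ≤ δ * s) →
      (∀ v, deg G v ≤ Δ) → 2 ≤ Fintype.card V → OptAll q s A V G := by
  have hdeg : ∀ (V : Type) [Fintype V] [DecidableEq V] (G : SimpleGraph V) (v : V),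
      (nb G Finset.univ v).card = deg G v := fun V _ _ G v =>
    Pool.Agent.TH288.ED.nb_univ_card G v
  obtain ⟨K, β, hβ, hK, h⟩ := Pool.Agent.N830.LG.he_gen ε hε
  have hKR : (0 : ℝ) < K := by exact_mod_cast hK
  have hmR : (0 : ℝ) < m := by exact_mod_cast hm
  refine ⟨β / (m * K), by positivity, fun Δ q s hs hs2 => ?_⟩
  obtain ⟨A, hA, hh⟩ := h Δ q s hs hs2
  refine ⟨A, hA, fun n X V _ _ G x hx hG hb hdG hV L hL => ?_⟩
  classical
  have hG' : ∀ u w, G.Adj u w → hammingDist (x u) (x w) = m := by
    intro u w huw
    rw [← hG u w huw]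
    unfold hammingDist
    rw [← Set.ncard_coe_finset]
    congr 1
    ext i
    simp
  refine hh V G L ⟨Pool.Agent.U348.JG.dd m x, Pool.Agent.U348.JG.dd_comm x,
    Pool.Agent.U348.JG.dd_zero hm x hx, ?_, ?_⟩ (fun v => ?_) (fun v => ?_) hV
  · intro v u y huy
    exact Pool.Agent.U348.JG.dd_step hm x v u y (hG' y u huy.symm)
  · intro v u hvu S hS
    have h1 : S.card ≤ ({y | G.Adj u y ∧
        Pool.Agent.U348.JG.dd m x v y ≤ Pool.Agent.U348.JG.dd m x v u} : Set V).ncard := by
      rw [← Set.ncard_coe_finset]
      exact Set.ncard_le_ncard (fun y hy => hS y hy) (Set.toFinite _)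
    have h2 := Pool.Agent.U348.JG.back hm G x hG' v u (β / (m * K) * s) (hb u)
    have h3 : (hammingDist (x v) (x u) : ℝ) ≤ m * K := by
      exact_mod_cast Pool.Agent.U348.JG.dd_le hm x v u hvu
    have h4 : (0 : ℝ) ≤ β / (m * K) * s := by positivity
    have h5 : ((S.card : ℕ) : ℝ) ≤ (({y | G.Adj u y ∧
        Pool.Agent.U348.JG.dd m x v y ≤ Pool.Agent.U348.JG.dd m x v u} : Set V).ncard : ℝ) := by
      exact_mod_cast h1
    calc (S.card : ℝ) ≤ hammingDist (x v) (x u) * (β / (m * K) * s) := h5.trans h2
      _ ≤ m * K * (β / (m * K) * s) := mul_le_mul_of_nonneg_right h3 h4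
      _ = β * s := by field_simp
  · rw [hdeg]; exact hdG v
  · rw [hdeg]; exact hL v

end Pool.Agent.Results.MP_26a019_lc.RootLattices
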